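import Pool.Agent.Q161.ESN.Stm2
import Pool.Agent.Q247.EL.CNT
import Pool.Agent.W54.Cheb.Tor
import Pool.Agent.H58P.Rad
import Pool.Agent.Q149.ESM.ZEXa
import Pool.Agent.Q224.ESM.FRX

/-!
# Project ESN (helper161), job FRX: Frobenius elements at unramified primes, relative version
-/

set_option autoImplicit false
set_option linter.unusedSectionVars false

namespace Pool.Agent.Q153.ESN

open NumberField IsDedekindDomain Finset
open Pool.Agent.Q161.ESN
open Pool.Agent.Q51.EL (pr Abv N1)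
open Pool.Agent.Q247.EL (VV finite_VV prod_card card_eq_norm finite_k)
open Pool.Agent.Q224.ESM (exists_hom' card_pow)

section

variable {F K : Type} [Field F] [NumberField F] [Field K] [NumberField K] [Algebra F K]

theorem ov_under {w : HeightOneSpectrum (𝓞 K)} {v : HeightOneSpectrum (𝓞 F)} (h : Ov w v) :
    w.asIdeal.under (𝓞 F) = v.asIdeal := by
  ext x
  exact (h x).symm

theorem fb_exists [IsGalois F K] (w : HeightOneSpectrum (𝓞 K)) (v : HeightOneSpectrum (𝓞 F))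
    (h : Ov w v) : ∃ φ : K ≃ₐ[F] K, Fb w (Ideal.absNorm v.asIdeal) φ := by
  have : Finite (𝓞 K ⧸ w.asIdeal) := Ideal.finiteQuotientOfFreeOfNeBot w.asIdeal w.ne_bot
  have := w.isPrime
  obtain ⟨σ, hσ⟩ := IsArithFrobAt.exists_of_isInvariant (𝓞 F) (K ≃ₐ[F] K) w.asIdeal
  have hc : Nat.card (𝓞 F ⧸ w.asIdeal.under (𝓞 F)) = Ideal.absNorm v.asIdeal := by
    rw [ov_under h, Ideal.absNorm_apply, Submodule.cardQuot_apply]
  refine ⟨σ, fun x y hxy => ?_⟩
  have h1 := hσ x
  rw [hc] at h1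
  have h2 : y = σ • x := RingOfIntegers.ext hxy
  rw [h2]
  exact h1

theorem exists_above (v : HeightOneSpectrum (𝓞 F)) : ∃ w : HeightOneSpectrum (𝓞 K), Ov w v := by
  have := v.isMaximal
  have hker : RingHom.ker (algebraMap (𝓞 F) (𝓞 K)) ≤ v.asIdeal := by
    rw [(RingHom.injective_iff_ker_eq_bot _).1 (FaithfulSMul.algebraMap_injective (𝓞 F) (𝓞 K))]
    exact bot_le
  obtain ⟨Q, hQ1, hQ2⟩ := Ideal.exists_ideal_over_maximal_of_isIntegral (S := 𝓞 K) v.asIdeal hker
  have hne : Q ≠ ⊥ := by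
    intro h
    rw [h] at hQ2
    have h1 : Ideal.comap (algebraMap (𝓞 F) (𝓞 K)) ⊥ = ⊥ :=
      (RingHom.injective_iff_ker_eq_bot _).1 (FaithfulSMul.algebraMap_injective (𝓞 F) (𝓞 K))
    exact v.ne_bot (hQ2.symm.trans h1)
  refine ⟨⟨Q, hQ1.isPrime, hne⟩, fun x => ?_⟩
  rw [← hQ2, Ideal.mem_comap]
  rfl

theorem card_ext (w : HeightOneSpectrum (𝓞 K)) (v : HeightOneSpectrum (𝓞 F)) (h : Ov w v) :
    ∃ f : ℕ, 0 < f ∧ Nat.card (𝓞 K ⧸ w.asIdeal) = Ideal.absNorm v.asIdeal ^ f := by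
  have := v.isMaximal
  have := w.isMaximal
  let _ : Field (𝓞 F ⧸ v.asIdeal) := Ideal.Quotient.field v.asIdeal
  let _ : Field (𝓞 K ⧸ w.asIdeal) := Ideal.Quotient.field w.asIdeal
  have : Finite (𝓞 K ⧸ w.asIdeal) := Ideal.finiteQuotientOfFreeOfNeBot w.asIdeal w.ne_bot
  have : Finite (𝓞 F ⧸ v.asIdeal) := Ideal.finiteQuotientOfFreeOfNeBot v.asIdeal v.ne_bot
  let g : (𝓞 F ⧸ v.asIdeal) →+* (𝓞 K ⧸ w.asIdeal) :=
    Ideal.quotientMap w.asIdeal (iO F K) (fun x hx => (h x).1 hx)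
  let _ : Algebra (𝓞 F ⧸ v.asIdeal) (𝓞 K ⧸ w.asIdeal) := g.toAlgebra
  have hfin : Module.Finite (𝓞 F ⧸ v.asIdeal) (𝓞 K ⧸ w.asIdeal) := Module.Finite.of_finite
  refine ⟨Module.finrank (𝓞 F ⧸ v.asIdeal) (𝓞 K ⧸ w.asIdeal), Module.finrank_pos, ?_⟩
  rw [Module.natCard_eq_pow_finrank (K := 𝓞 F ⧸ v.asIdeal), Ideal.absNorm_apply, Submodule.cardQuot_apply]

/-- powers of a Frobenius element -/
theorem fb_pow {w : HeightOneSpectrum (𝓞 K)} {q : ℕ} {φ : K ≃ₐ[F] K} (hφ : Fb w q φ) (m : ℕ) :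
    ∀ x : 𝓞 K, (φ ^ m) • x - x ^ (q ^ m) ∈ w.asIdeal := by
  induction m with
  | zero => intro x; simp
  | succ m ih =>
    intro x
    have h1 : φ • x - x ^ q ∈ w.asIdeal := hφ x (φ • x) rfl
    have h2 := ih (φ • x)
    have h3 : (φ • x) ^ q ^ m - (x ^ q) ^ q ^ m ∈ w.asIdeal :=
      Ideal.mem_of_dvd _ (sub_dvd_pow_sub_pow _ _ _) h1
    have h4 : (φ ^ (m + 1)) • x = (φ ^ m) • (φ • x) := by rw [pow_succ, mul_smul]
    have h5 : x ^ q ^ (m + 1) = (x ^ q) ^ q ^ m := by rw [← pow_mul, pow_succ']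
    rw [h4, h5]
    have h6 := w.asIdeal.add_mem h2 h3
    simpa using h6

theorem fb_card {w : HeightOneSpectrum (𝓞 K)} {q f : ℕ} {φ : K ≃ₐ[F] K} (hφ : Fb w q φ)
    (hf : Nat.card (𝓞 K ⧸ w.asIdeal) = q ^ f) (x : 𝓞 K) : (φ ^ f) • x - x ∈ w.asIdeal := by
  have h1 := fb_pow hφ f x
  have h2 : x ^ (q ^ f) - x ∈ w.asIdeal := by
    have := w.isMaximal
    let _ : Field (𝓞 K ⧸ w.asIdeal) := Ideal.Quotient.field w.asIdeal
    have : Finite (𝓞 K ⧸ w.asIdeal) := Ideal.finiteQuotientOfFreeOfNeBot w.asIdeal w.ne_bot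
    have hfty : Fintype (𝓞 K ⧸ w.asIdeal) := Fintype.ofFinite _
    rw [← Ideal.Quotient.eq_zero_iff_mem, map_sub, map_pow, ← hf, Nat.card_eq_fintype_card,
      FiniteField.pow_card, sub_self]
  have h3 := w.asIdeal.add_mem h1 h2
  simpa using h3

end

theorem frx : S_FRX := by
  intro F K _ _ _ _ _ _
  have hst : IsScalarTower ℚ F K := IsScalarTower.of_algebraMap_eq' (Subsingleton.elim _ _)
  have hgal : IsGalois F K := IsGalois.tower_top_of_isGalois ℚ F K
  obtain ⟨D, hD0, hD⟩ := W54.ChTor.main K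
  refine ⟨D * ((discr K).natAbs * (discr F).natAbs), mul_ne_zero hD0.ne' (mul_ne_zero
    (Int.natAbs_ne_zero.2 (discr_ne_zero K)) (Int.natAbs_ne_zero.2 (discr_ne_zero F))),
    fun l hl hlB => ?_⟩
  have hl1 : ¬ l ∣ D := fun h => hlB (h.mul_right _)
  have hl2 : ¬ (l : ℤ) ∣ discr K := fun h => hlB ((Int.natCast_dvd.1 h).mul_right _ |>.mul_left _)
  have hl3 : ¬ (l : ℤ) ∣ discr F := fun h => hlB ((Int.natCast_dvd.1 h).mul_left _ |>.mul_left _)
  have hsq := Pool.Agent.H58P.squarefree_span l hl hl2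
  have hsqF := Pool.Agent.H58P.squarefree_span l hl hl3
  have hlF : Fact l.Prime := ⟨hl⟩
  obtain ⟨-, htor, -⟩ := hD l hl1
  have hfin := finite_VV K hl
  have hft : Fintype (VV K l) := Fintype.ofFinite _
  have hprod := prod_card K hl hsq
  have hfinF := finite_VV F hl
  have hftF : Fintype (VV F l) := Fintype.ofFinite _
  have hprodF := prod_card F hl hsqF
  have hn : 0 < Module.finrank ℚ K := Module.finrank_pos
  have hl2' := hl.two_le
  -- trivial inertia
  have inert : ∀ w : HeightOneSpectrum (𝓞 K), Abv w l → ∀ σ : Gal(K/ℚ),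
      (∀ x : 𝓞 K, σ • x - x ∈ w.asIdeal) → σ = 1 := by
    intro w hw σ hσ
    obtain ⟨f, hf⟩ := exists_hom' l w.asIdeal w.isMaximal hw
    obtain ⟨τ, -, hτ⟩ := htor f f
    have e1 := hτ σ (fun x => by
      have h1 := (hf _).2 (hσ x)
      rw [map_sub, sub_eq_zero] at h1
      exact h1.symm)
    have e2 := hτ 1 (fun x => by rw [one_smul])
    rw [e1, e2]
  have inertF : ∀ w : HeightOneSpectrum (𝓞 K), Abv w l → ∀ φ : K ≃ₐ[F] K,
      (∀ x : 𝓞 K, φ • x - x ∈ w.asIdeal) → φ = 1 := by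
    intro w hw φ hφ
    have h1 := inert w hw (φ.restrictScalars ℚ) (fun x => hφ x)
    ext x
    have h2 := DFunLike.congr_fun h1 x
    exact h2
  -- all residue fields have the same order
  have same : ∀ v w : HeightOneSpectrum (𝓞 K), Abv v l → Abv w l →
      Nat.card (𝓞 K ⧸ v.asIdeal) = Nat.card (𝓞 K ⧸ w.asIdeal) := by
    intro v w hv hw
    obtain ⟨f, hf⟩ := exists_hom' l v.asIdeal v.isMaximal hv
    obtain ⟨g, hg⟩ := exists_hom' l w.asIdeal w.isMaximal hw
    obtain ⟨σ, hσ, -⟩ := htor g f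
    have hIJ : w.asIdeal = v.asIdeal.map ((MulSemiringAction.toRingEquiv Gal(K/ℚ) (𝓞 K) σ :
        𝓞 K ≃+* 𝓞 K) : 𝓞 K →+* 𝓞 K) := by
      ext y
      rw [Ideal.mem_map_iff_of_surjective ((MulSemiringAction.toRingEquiv Gal(K/ℚ) (𝓞 K) σ :
        𝓞 K ≃+* 𝓞 K) : 𝓞 K →+* 𝓞 K)
        (RingEquiv.surjective (MulSemiringAction.toRingEquiv Gal(K/ℚ) (𝓞 K) σ))]
      constructor
      · intro hy
        refine ⟨σ⁻¹ • y, ?_, ?_⟩
        · rw [← hf, hσ, smul_inv_smul, hg]
          exact hy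
        · exact smul_inv_smul σ y
      · rintro ⟨x, hx, rfl⟩
        rw [← hf, hσ, hg] at hx
        exact hx
    exact Nat.card_congr (Ideal.quotientEquiv v.asIdeal w.asIdeal _ hIJ).toEquiv
  -- primes of degree one
  have hone : N1 K l ≠ 0 → (∀ w : HeightOneSpectrum (𝓞 K), Abv w l →
      Nat.card (𝓞 K ⧸ w.asIdeal) = l) ∧ N1 K l = Module.finrank ℚ K := by
    intro h0
    obtain ⟨⟨v, hv⟩, -⟩ : Nonempty {v : HeightOneSpectrum (𝓞 K) // Ideal.absNorm v.asIdeal = l} ∧ True := by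
      refine ⟨?_, trivial⟩
      by_contra hne
      rw [not_nonempty_iff] at hne
      exact h0 Nat.card_of_isEmpty
    have habv : ∀ v : HeightOneSpectrum (𝓞 K), Ideal.absNorm v.asIdeal = l → Abv v l := by
      intro v hv
      have := Ideal.absNorm_mem v.asIdeal
      rw [hv] at this
      exact this
    have hcv : Nat.card (𝓞 K ⧸ v.asIdeal) = l := by
      rw [← hv, Ideal.absNorm_apply, Submodule.cardQuot_apply]
    have hall : ∀ w : HeightOneSpectrum (𝓞 K), Abv w l → Nat.card (𝓞 K ⧸ w.asIdeal) = l :=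
      fun w hw => (same w v hw (habv v hv)).trans hcv
    refine ⟨hall, ?_⟩
    rw [Finset.prod_congr rfl fun (w : VV K l) _ => hall w.1 w.2, Finset.prod_const, Finset.card_univ] at hprod
    have h1 := Nat.pow_right_injective hl2' hprod
    rw [← h1, ← Nat.card_eq_fintype_card]
    unfold N1
    refine Nat.card_congr (Equiv.subtypeEquivRight fun w => ⟨habv w, fun hw => ?_⟩)
    rw [Ideal.absNorm_apply, Submodule.cardQuot_apply]
    exact hall w hw
  -- primes above a prime above `l`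
  have habvK : ∀ (w : HeightOneSpectrum (𝓞 K)) (v : HeightOneSpectrum (𝓞 F)), Ov w v →
      (Abv v l ↔ Abv w l) := by
    intro w v h
    have h1 := h (l : 𝓞 F)
    rw [map_natCast] at h1
    exact h1
  refine ⟨hsq, ?_, ?_, ?_⟩
  · intro h
    by_contra h0
    exact h (hone h0).2
  · -- the data
    have hw : ∀ p : VV F l, ∃ w : HeightOneSpectrum (𝓞 K), Ov w p.1 := fun p => exists_above p.1
    choose w hw using hw
    have hφ : ∀ p : VV F l, ∃ φ : K ≃ₐ[F] K, Fb (w p) (Ideal.absNorm p.1.asIdeal) φ :=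
      fun p => fb_exists (w p) p.1 (hw p)
    choose φ hφ using hφ
    have hwl : ∀ p : VV F l, Abv (w p) l := fun p => (habvK (w p) p.1 (hw p)).1 p.2
    have hk : ∀ p : VV F l, ∃ k : ℕ, 0 < k ∧ Ideal.absNorm p.1.asIdeal = l ^ k := by
      intro p
      obtain ⟨k, hk0, hk⟩ := card_pow hl p.1 p.2
      exact ⟨k, hk0, by rw [← hk, card_eq_norm F p]⟩
    have hord : ∀ p : VV F l, ∃ f : ℕ, 0 < f ∧
        Nat.card (𝓞 K ⧸ (w p).asIdeal) = Ideal.absNorm p.1.asIdeal ^ f ∧ φ p ^ f = 1 := by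
      intro p
      obtain ⟨f, hf0, hf⟩ := card_ext (w p) p.1 (hw p)
      exact ⟨f, hf0, hf, inertF (w p) (hwl p) _ (fb_card (hφ p) hf)⟩
    refine ⟨VV F l, hftF, fun p => p.1, w, fun p => Ideal.absNorm p.1.asIdeal, φ, ?_⟩
    refine
      { inj := Subtype.val_injective
        abv := fun u => ⟨fun hu => ⟨⟨u, hu⟩, rfl⟩, ?_⟩
        ov := hw
        nq := fun p => rfl
        dich := fun p => ?_
        prod := ?_
        fb := hφ
        ord := hord
        n1 := ?_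
        spl := fun h p => ?_ }
    · rintro ⟨p, rfl⟩
      exact p.2
    · obtain ⟨k, hk0, hk⟩ := hk p
      show Ideal.absNorm p.1.asIdeal = l ∨ l ^ 2 ≤ Ideal.absNorm p.1.asIdeal
      rw [hk]
      rcases Nat.lt_or_ge k 2 with h2 | h2
      · left
        have : k = 1 := by omega
        rw [this, pow_one]
      · right
        exact Nat.pow_le_pow_right hl.pos h2
    · rw [← hprodF]
      exact Finset.prod_congr rfl fun p _ => (card_eq_norm F p).symm
    · have habv : ∀ v : HeightOneSpectrum (𝓞 F), Ideal.absNorm v.asIdeal = l → Abv v l := by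
        intro v hv
        have := Ideal.absNorm_mem v.asIdeal
        rw [hv] at this
        exact this
      have e1 : Nat.card {v : HeightOneSpectrum (𝓞 F) // Ideal.absNorm v.asIdeal = l} =
          Nat.card {p : VV F l // Ideal.absNorm p.1.asIdeal = l} :=
        Nat.card_congr
          { toFun := fun v => ⟨⟨v.1, habv v.1 v.2⟩, v.2⟩
            invFun := fun p => ⟨p.1.1, p.2⟩
            left_inv := fun v => rfl
            right_inv := fun p => rfl }
      unfold N1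
      rw [e1, Nat.card_eq_fintype_card, Fintype.card_subtype]
    · obtain ⟨h1, -⟩ := hone (by omega)
      have h2 := h1 (w p) (hwl p)
      obtain ⟨f, hf0, hf, hf1⟩ := hord p
      obtain ⟨k, hk0, hk⟩ := hk p
      have h3 : l ^ (k * f) = l ^ 1 := by
        rw [pow_mul, ← hk, ← hf, h2, pow_one]
      have h4 : k * f = 1 := Nat.pow_right_injective hl2' h3
      have h5 : k = 1 := Nat.eq_one_of_mul_eq_one_right h4
      have h6 : f = 1 := Nat.eq_one_of_mul_eq_one_left h4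
      rw [h5, pow_one] at hk
      rw [h6, pow_one] at hf1
      exact ⟨hk, hf1, h2⟩
  · intro w hw
    obtain ⟨v, hv⟩ := Pool.Agent.Q149.ESM.exists_blw (algebraMap F K) w l hl.ne_zero hw
    have hov : Ov w v := hv
    exact ⟨v, hov, (habvK w v hov).2 hw, fb_exists w v hov⟩

end Pool.Agent.Q153.ESN
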